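import Pool.Agent.ATB.Stmts

set_option autoImplicit false
set_option linter.all false

/-!
# ATB, rows DIF and DPR: rules for the exterior derivative
-/

namespace Pool.Agent.ATB.H90

open scoped TensorProduct
open Pool.Agent.ATB

section
variable {K : Type} [Field K] {n : ℕ}

theorem iota_eq_sum (c : Fin n → K) : ExteriorAlgebra.ι K c =
    ∑ s, c s • ExteriorAlgebra.ι K (Pi.single s (1 : K) : Fin n → K) := by
  have h : c = ∑ s, c s • (Pi.single s (1 : K) : Fin n → K) := by
    funext t
    rw [Finset.sum_apply, Finset.sum_eq_single t]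
    · simp
    · intro b _ hb
      simp [Pi.single_eq_of_ne (Ne.symm hb)]
    · intro h; exact absurd (Finset.mem_univ t) h
  conv_lhs => rw [h]
  rw [map_sum]
  simp only [map_smul]

theorem iota_anti (a b : Fin n → K) : ExteriorAlgebra.ι K a * ExteriorAlgebra.ι K b =
    - (ExteriorAlgebra.ι K b * ExteriorAlgebra.ι K a) :=
  eq_neg_of_add_eq_zero_left (ExteriorAlgebra.ι_add_mul_swap a b)

theorem pderiv_comm (s r : Fin n) (t : MvPolynomial (Fin n) K) :
    MvPolynomial.pderiv s (MvPolynomial.pderiv r t) = MvPolynomial.pderiv r (MvPolynomial.pderiv s t) := by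
  classical
  have h : (⁅(MvPolynomial.pderiv s : Derivation K (MvPolynomial (Fin n) K) (MvPolynomial (Fin n) K)),
      MvPolynomial.pderiv r⁆ : Derivation K (MvPolynomial (Fin n) K) (MvPolynomial (Fin n) K)) = 0 := by
    apply MvPolynomial.derivation_ext
    intro i
    rw [Derivation.commutator_apply]
    by_cases h1 : i = r <;> by_cases h2 : i = s
    · subst h1; subst h2; simp
    · subst h1; simp [MvPolynomial.pderiv_X_self, MvPolynomial.pderiv_X_of_ne h2]
    · subst h2; simp [MvPolynomial.pderiv_X_self, MvPolynomial.pderiv_X_of_ne h1]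
    · simp [MvPolynomial.pderiv_X_of_ne h2, MvPolynomial.pderiv_X_of_ne h1]
  have h' := congrArg (fun D : Derivation K (MvPolynomial (Fin n) K) (MvPolynomial (Fin n) K) => D t) h
  simp only [Derivation.commutator_apply, Derivation.zero_apply] at h'
  exact sub_eq_zero.1 h'

theorem dd_dd (x : AA K n) : dd (dd x) = 0 := by
  classical
  induction x using TensorProduct.induction_on with
  | zero => simp
  | add x y hx hy => rw [map_add, map_add, hx, hy, add_zero]
  | tmul t w =>
    rw [dd_tmul, map_sum]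
    simp only [dd_tmul]
    rw [← Finset.sum_product']
    apply Finset.sum_involution (fun (p : Fin n × Fin n) _ => (p.2, p.1))
    · rintro ⟨s, r⟩ _
      show MvPolynomial.pderiv r (MvPolynomial.pderiv s t) ⊗ₜ[K] _ +
        MvPolynomial.pderiv s (MvPolynomial.pderiv r t) ⊗ₜ[K] _ = 0
      rw [pderiv_comm r s, ← TensorProduct.tmul_add, ← mul_assoc, ← mul_assoc, ← add_mul,
        ExteriorAlgebra.ι_add_mul_swap, zero_mul, TensorProduct.tmul_zero]
    · rintro ⟨s, r⟩ _ hne heq
      apply hne
      have hrs : r = s := congrArg Prod.fst heq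
      subst hrs
      show MvPolynomial.pderiv r (MvPolynomial.pderiv r t) ⊗ₜ[K] _ = 0
      rw [← mul_assoc, ExteriorAlgebra.ι_sq_zero, zero_mul, TensorProduct.tmul_zero]
    · intro p _; exact Finset.mem_product.2 ⟨Finset.mem_univ _, Finset.mem_univ _⟩
    · intro p _; rfl

theorem wl_wl (c : Fin n → K) (x : AA K n) : wl c (wl c x) = 0 := by
  induction x using TensorProduct.induction_on with
  | zero => simp
  | add x y hx hy => rw [map_add, map_add, hx, hy, add_zero]
  | tmul t w => rw [wl_tmul, wl_tmul, ← mul_assoc, ExteriorAlgebra.ι_sq_zero, zero_mul, TensorProduct.tmul_zero]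

theorem dd_pm_lin (c : Fin n → K) (x : AA K n) : dd (pm (lin c) x) = wl c x + pm (lin c) (dd x) := by
  induction x using TensorProduct.induction_on with
  | zero => simp
  | add x y hx hy => simp only [map_add, hx, hy]; abel
  | tmul t w =>
    rw [pm_tmul, dd_tmul, dd_tmul, wl_tmul, map_sum]
    simp only [Derivation.leibniz, pderiv_lin, pm_tmul, smul_eq_mul, TensorProduct.add_tmul]
    rw [Finset.sum_add_distrib, add_comm]
    congr 1
    rw [iota_eq_sum c, Finset.sum_mul, TensorProduct.tmul_sum]
    refine Finset.sum_congr rfl (fun s _ => ?_)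
    rw [smul_mul_assoc, ← TensorProduct.smul_tmul, MvPolynomial.smul_eq_C_mul, mul_comm]

theorem dd_wl (c : Fin n → K) (x : AA K n) : dd (wl c x) = - wl c (dd x) := by
  induction x using TensorProduct.induction_on with
  | zero => simp
  | add x y hx hy => simp only [map_add, hx, hy]; abel
  | tmul t w =>
    rw [wl_tmul, dd_tmul, dd_tmul, map_sum, ← Finset.sum_neg_distrib]
    refine Finset.sum_congr rfl (fun s _ => ?_)
    rw [wl_tmul, ← mul_assoc, iota_anti, neg_mul, TensorProduct.tmul_neg, mul_assoc]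

theorem dd_one (ω : ExteriorAlgebra K (Fin n → K)) :
    dd ((1 : MvPolynomial (Fin n) K) ⊗ₜ[K] ω) = 0 := by
  rw [dd_tmul]
  apply Finset.sum_eq_zero
  intro s _
  rw [Derivation.map_one_eq_zero, TensorProduct.zero_tmul]

theorem dd_pm_pow (c : Fin n → K) (l : ℕ) (x : AA K n) :
    dd (pm (lin c ^ (l + 1)) x) =
      ((l + 1 : ℕ) : K) • pm (lin c ^ l) (wl c x) + pm (lin c ^ (l + 1)) (dd x) := by
  induction l with
  | zero =>
    rw [zero_add, pow_one, pow_zero, pm_one, Nat.cast_one, one_smul]
    exact dd_pm_lin c x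
  | succ l ih =>
    rw [pow_succ' (lin c) (l + 1), pm_mul, dd_pm_lin, ih, wl_pm, map_add, map_smul, ← pm_mul, ← pow_succ',
      ← pm_mul, Nat.cast_succ (l + 1), add_smul, one_smul]
    abel

theorem wl_add_smul (c c' : Fin n → K) (a : K) (x : AA K n) :
    wl (c + a • c') x = wl c x + a • wl c' x := by
  induction x using TensorProduct.induction_on with
  | zero => simp
  | add x y hx hy => simp only [map_add, hx, hy, smul_add]; abel
  | tmul t w =>
    rw [wl_tmul, wl_tmul, wl_tmul, map_add, map_smul, add_mul, smul_mul_assoc, TensorProduct.tmul_add,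
      TensorProduct.tmul_smul]

end

/-- DIF. -/
theorem dif : DIFStmt := fun K _ n =>
  ⟨dd_dd, wl_wl, dd_pm_lin, dd_wl, dd_one, dd_pm_pow, wl_add_smul⟩

section
variable {K : Type} [Field K] {n : ℕ}

theorem dpr1 (E : Multiset (Fin n → K)) : ∀ (x : AA K n) (T : Submodule K (AA K n)),
    (∀ (a : Fin n → K) (E' : Multiset (Fin n → K)), E = a ::ₘ E' → pm (prodm E') (wl a x) ∈ T) →
    dd (pm (prodm E) x) - pm (prodm E) (dd x) ∈ T := by
  induction E using Multiset.induction_on with
  | empty =>
    intro x T _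
    rw [prodm_zero, pm_one, pm_one, sub_self]
    exact T.zero_mem
  | cons b E₀ ih =>
    intro x T hT
    have h1 : dd (pm (prodm (b ::ₘ E₀)) x) - pm (prodm (b ::ₘ E₀)) (dd x) =
        pm (prodm E₀) (wl b x) + pm (lin b) (dd (pm (prodm E₀) x) - pm (prodm E₀) (dd x)) := by
      rw [prodm_cons, pm_mul, pm_mul, dd_pm_lin, wl_pm, map_sub]
      abel
    rw [h1]
    refine T.add_mem (hT b E₀ rfl) ?_
    have h2 := ih x (T.comap (pm (lin b))) (by
      intro a E' hE
      rw [Submodule.mem_comap, ← pm_mul, ← prodm_cons]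
      exact hT a (b ::ₘ E') (by rw [hE, Multiset.cons_swap]))
    exact h2

end

/-- DPR. -/
theorem dpr : DPRStmt := by
  intro K _ n
  refine ⟨fun E x T hT => dpr1 E x T hT, fun E ω T hT => ?_⟩
  have h := dpr1 E ((1 : MvPolynomial (Fin n) K) ⊗ₜ[K] ω) T (by
    intro a E' hE
    rw [wl_tmul, pm_tmul, mul_one]
    exact hT a E' hE)
  rw [pm_tmul, mul_one, dd_one, map_zero, sub_zero] at h
  exact h

end Pool.Agent.ATB.H90
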